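import Pool.Agent.X34.CY.Stm

/-! Project CY (MP_6efeb4_pr): part LO. -/

set_option autoImplicit false

namespace Pool.Agent.X332.CY

open Finset Pool.Agent.X34.CY

theorem t_LO : S_LO := by
  intro ε δ lam hε hε1 hδ hlam
  have hl1 : 1 ≤ lam := by rcases hlam with h | h <;> rw [h] <;> norm_num
  have hl2 : lam ≤ 2 := by rcases hlam with h | h <;> rw [h]; norm_num
  obtain ⟨K1, hK1⟩ := exists_pow_lt_of_lt_one hδ (show 1 - ε / 2 < 1 by linarith)
  obtain ⟨K2, hK2⟩ := exists_nat_ge (12 / ε)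
  refine ⟨max 1 (max K1 K2), fun k n R Wc hk hlog hR hW => ?_⟩
  have hk1 : 1 ≤ k := le_trans (le_max_left _ _) hk
  have hkK1 : K1 ≤ k := (le_max_left _ _).trans ((le_max_right _ _).trans hk)
  have hKK : (K2 : ℝ) ≤ ((max 1 (max K1 K2) : ℕ) : ℝ) := by
    exact_mod_cast (le_max_right K1 K2).trans (le_max_right _ _)
  have hKK1 : (1 : ℝ) ≤ ((max 1 (max K1 K2) : ℕ) : ℝ) := by
    exact_mod_cast le_max_left 1 (max K1 K2)
  have hk0 : (0 : ℝ) < k := by exact_mod_cast hk1
  have hn : 0 < n := by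
    rcases Nat.eq_zero_or_pos n with h | h
    · exfalso
      rw [h, Nat.cast_zero, Real.log_zero] at hlog
      nlinarith
    · exact h
  have hn0 : (0 : ℝ) < n := by exact_mod_cast hn
  set x : ℝ := (n : ℝ) ^ (1 / (k : ℝ)) with hx
  have hxk : x ^ k = n := by
    rw [hx, ← Real.rpow_natCast, ← Real.rpow_mul hn0.le, one_div_mul_cancel hk0.ne', Real.rpow_one]
  have hxe : Real.exp K2 ≤ x := by
    have h1 : (K2 : ℝ) ≤ Real.log n / k := by
      rw [le_div_iff₀ hk0]
      nlinarith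
    have h2 : x = Real.exp (Real.log n / k) := by
      rw [hx, Real.rpow_def_of_pos hn0]
      congr 1
      ring
    rw [h2]
    exact Real.exp_le_exp.2 h1
  have hx12 : 12 / ε ≤ x := by linarith [Real.add_one_le_exp (K2 : ℝ)]
  have h12 : 12 ≤ x * ε := by rwa [div_le_iff₀ hε] at hx12
  have hx0 : 0 < x := lt_of_lt_of_le (Real.exp_pos _) hxe
  have he : Real.exp 1 < 2.7182818286 := Real.exp_one_lt_d9
  have hep := Real.exp_pos 1
  have hle : lam * Real.exp 1 ≤ ε / 2 * x := by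
    have h1 : lam * Real.exp 1 ≤ 2 * Real.exp 1 := by gcongr
    linarith
  by_cases hWc : Wc ≤ 0
  · exact (div_nonpos_of_nonpos_of_nonneg hWc hn0.le).trans hδ.le
  have hq : 0 ≤ 1 - ε / 2 := by linarith
  have h1 : lam * ((R : ℝ) + k) ≤ k * ((1 - ε / 2) * x) / Real.exp 1 := by
    rw [le_div_iff₀ hep]
    have h2 : (R : ℝ) * (lam * Real.exp 1) ≤ (1 - ε) * (k * x) := by
      have h := mul_le_mul_of_nonneg_right hR (by positivity : 0 ≤ lam * Real.exp 1)
      rwa [mul_assoc (1 - ε), div_mul_cancel₀ _ (by positivity)] at h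
    have h3 := mul_le_mul_of_nonneg_left hle hk0.le
    linarith
  have h3 : lam ^ k * ((R : ℝ) + k) ^ k ≤ k ^ k * ((1 - ε / 2) ^ k * n) / Real.exp 1 ^ k := by
    have e : (k : ℝ) ^ k * ((1 - ε / 2) ^ k * n) / Real.exp 1 ^ k =
        (k * ((1 - ε / 2) * x) / Real.exp 1) ^ k := by
      rw [div_pow, mul_pow, mul_pow, hxk]
    rw [e, ← mul_pow]
    exact pow_le_pow_left₀ (by positivity) h1 k
  have h4 : (k : ℝ) ^ k ≤ k.factorial * Real.exp 1 ^ k := by
    have h := Real.pow_div_factorial_le_exp (k : ℝ) hk0.le k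
    rw [div_le_iff₀ (by positivity)] at h
    have e : Real.exp (k : ℝ) = Real.exp 1 ^ k := by rw [← Real.exp_nat_mul, mul_one]
    rw [e] at h
    linarith
  have hf : (0 : ℝ) < k.factorial := by positivity
  have h5 : Wc * k.factorial ≤ ((1 - ε / 2) ^ k * n) * k.factorial := by
    refine (hW.trans h3).trans ?_
    rw [div_le_iff₀ (by positivity)]
    calc (k : ℝ) ^ k * ((1 - ε / 2) ^ k * n)
        ≤ (k.factorial * Real.exp 1 ^ k) * ((1 - ε / 2) ^ k * n) :=
          mul_le_mul_of_nonneg_right h4 (by positivity)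
      _ = ((1 - ε / 2) ^ k * n) * k.factorial * Real.exp 1 ^ k := by ring
  have h6 : Wc ≤ (1 - ε / 2) ^ k * n := le_of_mul_le_mul_right h5 hf
  rw [div_le_iff₀ hn0]
  have h7 : (1 - ε / 2) ^ k ≤ δ :=
    (pow_le_pow_of_le_one hq (by linarith) hkK1).trans hK1.le
  exact h6.trans (mul_le_mul_of_nonneg_right h7 hn0.le)

end Pool.Agent.X332.CY
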